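import Mathlib

/-!
# The group, decoding, and the two compact sets
-/

set_option autoImplicit false

namespace Pool.Agent.H904R4

open Set Topology

/-- The discrete group of the coordinates. -/
abbrev H := ℤ × ℤ × ZMod 2

/-- The group: sequences of elements of `H`, with the product topology. -/
abbrev G := ℕ → H

/-- A decoding of the coordinates: a bit and a number can be read off from an integer, such that
for all bits and bounds some translation by `c` makes the bit the prescribed one and undoes the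
translation on the whole interval. -/
theorem exists_decoder : ∃ (a : ℤ → Bool) (ψ : ℤ → ℤ), ∀ (α : Bool) (b : ℕ),
    ∃ c : ℤ, ∀ t : ℤ, |t| ≤ b → a (c + t) = α ∧ ψ (c + t) = t := by
  refine ⟨fun n => decide ((Nat.unpair (Nat.log 2 n.toNat)).1 = 1),
    fun n => n - (2 ^ (Nat.log 2 n.toNat) + (Nat.unpair (Nat.log 2 n.toNat)).2), ?_⟩
  intro α b
  let e := Nat.pair (if α then 1 else 0) (b + 3)
  have he : b + 3 ≤ e := Nat.right_le_pair _ _
  have hpow : 2 * b + 3 < 2 ^ e := by
    have h1 : 2 ^ (b + 3) ≤ 2 ^ e := Nat.pow_le_pow_right (by norm_num) he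
    have h2 : b < 2 ^ b := Nat.lt_two_pow_self
    have h3 : 2 ^ (b + 3) = 8 * 2 ^ b := by ring
    omega
  refine ⟨2 ^ e + (b + 3 : ℕ), ?_⟩
  intro t ht
  have ht' := abs_le.mp ht
  have hlog : Nat.log 2 ((2 ^ e + (b + 3 : ℕ) + t : ℤ)).toNat = e := by
    have hcast : ((2 ^ e : ℕ) : ℤ) = (2 : ℤ) ^ e := by push_cast; ring
    have hpos : (0 : ℤ) ≤ 2 ^ e + (b + 3 : ℕ) + t := by
      rw [← hcast]; push_cast; omega
    rw [Nat.log_eq_iff (by right; exact ⟨by norm_num, by
      rw [← hcast] at hpos ⊢
      have : (0 : ℤ) < (2 ^ e : ℕ) := by positivity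
      push_cast at *
      omega⟩)]
    constructor
    · have : ((2 ^ e : ℕ) : ℤ) ≤ 2 ^ e + (b + 3 : ℕ) + t := by
        rw [hcast]; push_cast; omega
      exact (Int.le_toNat hpos).mpr this
    · have h4 : (2 ^ e + (b + 3 : ℕ) + t : ℤ) < ((2 ^ (e + 1) : ℕ) : ℤ) := by
        have h5 : ((2 ^ (e + 1) : ℕ) : ℤ) = 2 ^ e + 2 ^ e := by push_cast; ring
        have h6 : ((2 * b + 3 : ℕ) : ℤ) < ((2 ^ e : ℕ) : ℤ) := by exact_mod_cast hpow
        rw [h5]
        rw [hcast] at h6
        push_cast at h6 ⊢
        omega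
      exact (Int.toNat_lt hpos).mpr h4
  have hunp : Nat.unpair e = (if α then 1 else 0, b + 3) := Nat.unpair_pair _ _
  constructor
  · simp only [hlog, hunp]
    cases α <;> simp
  · simp only [hlog, hunp]
    push_cast
    ring

/-- The bit read off from an integer. -/
noncomputable def bit : ℤ → Bool := exists_decoder.choose

/-- The number read off from an integer. -/
noncomputable def num : ℤ → ℤ := exists_decoder.choose_spec.choose

theorem decoder (α : Bool) (b : ℕ) :
    ∃ c : ℤ, ∀ t : ℤ, |t| ≤ b → bit (c + t) = α ∧ num (c + t) = t :=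
  exists_decoder.choose_spec.choose_spec α b

theorem exists_basis : ∃ U : ℕ → Set G, (∀ n, IsOpen (U n)) ∧
    ∀ (O : Set G) (x : G), IsOpen O → x ∈ O → ∃ n, x ∈ U n ∧ U n ⊆ O := by
  have hne : (TopologicalSpace.countableBasis G).Nonempty := by
    have := TopologicalSpace.isBasis_countableBasis G
    obtain ⟨u, hu, _⟩ := this.exists_subset_of_mem_open (mem_univ (0 : G)) isOpen_univ
    exact ⟨u, hu⟩
  obtain ⟨U, hU⟩ := (TopologicalSpace.countable_countableBasis G).exists_eq_range hne
  have hb := TopologicalSpace.isBasis_countableBasis G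
  refine ⟨U, fun n => hb.isOpen (hU ▸ mem_range_self n), ?_⟩
  intro O x hO hx
  obtain ⟨u, hu, hxu, huO⟩ := hb.exists_subset_of_mem_open hx hO
  rw [hU] at hu
  obtain ⟨n, rfl⟩ := hu
  exact ⟨n, hxu, huO⟩

/-- A countable basis of the topology. -/
noncomputable def U : ℕ → Set G := exists_basis.choose

theorem U_open (n : ℕ) : IsOpen (U n) := exists_basis.choose_spec.1 n

theorem U_basis (O : Set G) (x : G) (hO : IsOpen O) (hx : x ∈ O) : ∃ n, x ∈ U n ∧ U n ⊆ O :=
  exists_basis.choose_spec.2 O x hO hx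

/-- The pairs of a code and a point of the closed set with this code. -/
def Kset : Set ((ℕ → Bool) × G) := {p | ∀ s, p.1 s = true → p.2 ∉ U s}

theorem isClosed_Kset : IsClosed Kset := by
  have : Kset = ⋂ s, ({p : (ℕ → Bool) × G | p.1 s = false} ∪ {p | p.2 ∈ (U s)ᶜ}) := by
    ext p
    simp only [Kset, mem_setOf_eq, mem_iInter, mem_union, mem_compl_iff]
    constructor
    · intro h s
      cases hs : p.1 s
      · left; rfl
      · right; exact h s hs
    · intro h s hs
      rcases h s with h | h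
      · rw [hs] at h; cases h
      · exact h
  rw [this]
  refine isClosed_iInter fun s => IsClosed.union ?_ ?_
  · exact isClosed_eq ((continuous_apply s).comp continuous_fst) continuous_const
  · exact (U_open s).isClosed_compl.preimage continuous_snd

/-- Every closed set has a code. -/
theorem exists_code (W : Set G) (hW : IsClosed W) :
    ∃ m : ℕ → Bool, ∀ q, (m, q) ∈ Kset ↔ q ∈ W := by
  classical
  refine ⟨fun s => decide (Disjoint (U s) W), ?_⟩
  intro q
  simp only [Kset, mem_setOf_eq, decide_eq_true_eq]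
  constructor
  · intro h
    by_contra hq
    obtain ⟨n, hn, hsub⟩ := U_basis Wᶜ q hW.isOpen_compl hq
    exact h n (Set.disjoint_left.mpr fun x hx hxW => hsub hx hxW) hn
  · intro hq s hs hqs
    exact (Set.disjoint_left.mp hs) hqs hq

/-- Decoding of a point. -/
noncomputable def Th (g : G) : (ℕ → Bool) × G :=
  (fun n => bit (g n).1, fun n => (num (g n).1, (g n).2))

theorem continuous_Th : Continuous Th := by
  have h1 : Continuous (bit : ℤ → Bool) := continuous_of_discreteTopology
  have h2 : Continuous (num : ℤ → ℤ) := continuous_of_discreteTopology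
  refine Continuous.prodMk ?_ ?_
  · exact continuous_pi fun n => h1.comp (continuous_fst.comp (continuous_apply n))
  · exact continuous_pi fun n =>
      (h2.comp (continuous_fst.comp (continuous_apply n))).prodMk
        (continuous_snd.comp (continuous_apply n))

/-- The element of `G` with the given third coordinates. -/
def emb (μ : ℕ → ZMod 2) : G := fun i => (0, 0, μ i)

/-- The points of `W` whose coset of the `k`-th subgroup of third coordinates is in `W`. -/
def S (k : ℕ) (W : Set G) : Set G := {q | ∀ μ : ℕ → ZMod 2, (∀ i < k, μ i = 0) → q + emb μ ∈ W}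

/-- The number of ones before the position `i` in the third coordinates. -/
def ones (c : G) (i : ℕ) : ℕ := ∑ n ∈ Finset.range i, if (c n).2.2 = 1 then 1 else 0

/-- The first compact set. -/
def C0 : Set G := {c | ∀ i, (c i).1 = 0 ∧
  ((c i).2.1 = 0 ∨ ((c i).2.1 = 1 ∧ 2 ^ (ones c i) ∣ i))}

/-- The second compact set. -/
def C1 : Set G := {c | ∀ i, (c i).1 = 0 ∧ (c i).2.1 = 0}

/-- The points whose translates of the pieces of the first compact set are in `W`. -/
def R (r : ℕ) (W : Set G) : Set G :=
  {q | ∃ v ∈ C0, (v r).2.2 = 1 ∧ ∀ l ∈ C0, (∀ i < r, l i = v i) → q - v + l ∈ W}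

/-- The set for the second compact set. -/
def D1 (W : Set G) : Set G := {q | q ∈ W ∧ ∀ k, q ∉ S k W}

/-- The set for the first compact set. -/
def D0 (W : Set G) : Set G := {q | q ∈ W ∧ ∀ r, q ∉ R r W}

theorem continuous_ones (i : ℕ) : Continuous (fun c : G => ones c i) := by
  unfold ones
  refine continuous_finset_sum _ fun n _ => ?_
  have : Continuous (fun h : H => if h.2.2 = 1 then (1 : ℕ) else 0) :=
    continuous_of_discreteTopology
  exact this.comp (continuous_apply n)

theorem isClosed_C0 : IsClosed C0 := by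
  have : C0 = ⋂ i, (fun c : G => (c i, ones c i)) ⁻¹'
      {p : H × ℕ | p.1.1 = 0 ∧ (p.1.2.1 = 0 ∨ (p.1.2.1 = 1 ∧ 2 ^ p.2 ∣ i))} := by
    ext c
    simp [C0]
  rw [this]
  refine isClosed_iInter fun i => ?_
  exact (isClosed_discrete _).preimage ((continuous_apply i).prodMk (continuous_ones i))

theorem isCompact_C0 : IsCompact C0 := by
  have hfin : (({0} : Set ℤ) ×ˢ (({0, 1} : Set ℤ) ×ˢ (univ : Set (ZMod 2)))).Finite :=
    (Set.finite_singleton _).prod ((Set.toFinite _).prod (Set.toFinite _))
  have hc : IsCompact (Set.pi univ fun _ : ℕ =>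
      (({0} : Set ℤ) ×ˢ (({0, 1} : Set ℤ) ×ˢ (univ : Set (ZMod 2))))) :=
    isCompact_univ_pi fun _ => hfin.isCompact
  refine hc.of_isClosed_subset isClosed_C0 ?_
  intro c hc i _
  obtain ⟨h1, h2⟩ := hc i
  refine ⟨h1, ?_, mem_univ _⟩
  rcases h2 with h2 | h2
  · left; exact h2
  · right; exact h2.1

theorem isCompact_C1 : IsCompact C1 := by
  have hfin : (({0} : Set ℤ) ×ˢ (({0} : Set ℤ) ×ˢ (univ : Set (ZMod 2)))).Finite :=
    (Set.finite_singleton _).prod ((Set.finite_singleton _).prod (Set.toFinite _))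
  have hc : IsCompact (Set.pi univ fun _ : ℕ =>
      (({0} : Set ℤ) ×ˢ (({0} : Set ℤ) ×ˢ (univ : Set (ZMod 2))))) :=
    isCompact_univ_pi fun _ => hfin.isCompact
  convert hc using 1
  ext c
  simp [C1, Set.mem_pi]

theorem zero_mem_C0 : (0 : G) ∈ C0 := fun i => ⟨rfl, Or.inl rfl⟩

theorem zero_mem_C1 : (0 : G) ∈ C1 := fun i => ⟨rfl, rfl⟩

/-- Neighbourhoods contain cylinders. -/
theorem exists_cylinder {O : Set G} (hO : IsOpen O) {x : G} (hx : x ∈ O) :
    ∃ n, ∀ y : G, (∀ i < n, y i = x i) → y ∈ O := by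
  obtain ⟨u, ⟨z, n, rfl⟩, hxu, huO⟩ :=
    (PiNat.isTopologicalBasis_cylinders (fun _ : ℕ => H)).exists_subset_of_mem_open hx hO
  refine ⟨n, fun y hy => huO ?_⟩
  intro i hi
  rw [hy i hi]
  exact hxu i hi

theorem isOpen_cylinder (x : G) (n : ℕ) : IsOpen {y : G | ∀ i < n, y i = x i} :=
  PiNat.isOpen_cylinder (fun _ : ℕ => H) x n

theorem isClosed_cylinder (x : G) (n : ℕ) : IsClosed {y : G | ∀ i < n, y i = x i} := by
  have : {y : G | ∀ i < n, y i = x i} = ⋂ i, ⋂ (_ : i < n), {y : G | y i = x i} := by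
    ext y; simp
  rw [this]
  exact isClosed_iInter fun i => isClosed_iInter fun _ =>
    isClosed_eq (continuous_apply i) continuous_const

end Pool.Agent.H904R4
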