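import Pool.Agent.H904R4.Main

/-!
# The core of the argument and the main theorem
-/

set_option autoImplicit false

namespace Pool.Agent.H904R4

open Set Topology

/-- The unit vector with second coordinate `1` at the position `i`. -/
def unit (i : ℕ) : G := fun n => (0, (if n = i then 1 else 0), 0)

/-- A strictly increasing functional. -/
noncomputable def fn (q : G) : ℝ := ∑' i, (1 / 2 : ℝ) ^ i * Real.arctan ((q i).2.1 : ℝ)

theorem term_bound (q : G) (i : ℕ) :
    ‖(1 / 2 : ℝ) ^ i * Real.arctan ((q i).2.1 : ℝ)‖ ≤ (1 / 2 : ℝ) ^ i * 2 := by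
  rw [norm_mul, norm_pow]
  have h1 : ‖(1 / 2 : ℝ)‖ = 1 / 2 := by norm_num
  rw [h1]
  refine mul_le_mul_of_nonneg_left ?_ (by positivity)
  rw [Real.norm_eq_abs, abs_le]
  have h2 := Real.neg_pi_div_two_lt_arctan ((q i).2.1 : ℝ)
  have h3 := Real.arctan_lt_pi_div_two ((q i).2.1 : ℝ)
  have h4 := Real.pi_le_four
  constructor <;> linarith

theorem summable_bound : Summable fun i : ℕ => (1 / 2 : ℝ) ^ i * 2 :=
  (summable_geometric_of_lt_one (by norm_num) (by norm_num)).mul_right 2

theorem summable_term (q : G) :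
    Summable fun i : ℕ => (1 / 2 : ℝ) ^ i * Real.arctan ((q i).2.1 : ℝ) :=
  Summable.of_norm_bounded summable_bound (term_bound q)

theorem continuous_fn : Continuous fn := by
  unfold fn
  refine continuous_tsum (fun i => ?_) summable_bound (fun i q => term_bound q i)
  refine continuous_const.mul (Real.continuous_arctan.comp ?_)
  have : Continuous fun h : H => (h.2.1 : ℝ) := continuous_of_discreteTopology
  exact this.comp (continuous_apply i)

theorem fn_lt (q : G) (i : ℕ) : fn q < fn (q + unit i) := by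
  unfold fn
  refine Summable.tsum_lt_tsum (i := i) (fun n => ?_) ?_ (summable_term q) (summable_term _)
  · refine mul_le_mul_of_nonneg_left ?_ (by positivity)
    refine Real.arctan_strictMono.monotone ?_
    have : ((q + unit i) n).2.1 = (q n).2.1 + (if n = i then 1 else 0) := rfl
    rw [this]
    push_cast
    split_ifs <;> simp
  · refine mul_lt_mul_of_pos_left ?_ (by positivity)
    refine Real.arctan_strictMono ?_
    have : ((q + unit i) i).2.1 = (q i).2.1 + 1 := by
      show (q i).2.1 + (if i = i then 1 else 0) = _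
      simp
    rw [this]
    push_cast
    linarith

/-- In a nonempty compact set there is a point with no unit vector leading from it into the
set. -/
theorem exists_max (W : Set G) (hW : IsCompact W) (hne : W.Nonempty) :
    ∃ q ∈ W, ∀ i, q + unit i ∉ W := by
  obtain ⟨q, hq, hmax⟩ := hW.exists_isMaxOn hne continuous_fn.continuousOn
  exact ⟨q, hq, fun i hi => absurd (hmax hi) (not_le.mpr (fn_lt q i))⟩

/-- The combinatorial core. -/
theorem core (C : Set G) (hC : IsCompact C) (hne : C.Nonempty)
    (h1 : ∀ (σ : G) (n : ℕ), (C ∩ {y | ∀ i < n, y i = σ i}).Nonempty →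
      ∃ (k : ℕ) (τ : G) (p : ℕ), τ ∈ C ∧
        C ∩ {y | ∀ i < p, y i = τ i} ⊆ S k (C ∩ {y | ∀ i < n, y i = σ i}))
    (h0 : ∀ (σ : G) (n : ℕ), (C ∩ {y | ∀ i < n, y i = σ i}).Nonempty →
      ∃ (r : ℕ) (τ : G) (p : ℕ), τ ∈ C ∧
        C ∩ {y | ∀ i < p, y i = τ i} ⊆ R r (C ∩ {y | ∀ i < n, y i = σ i})) : False := by
  -- first the invariance
  obtain ⟨k, σ, p0, hσ, hk⟩ := h1 0 0 (by
    obtain ⟨c, hc⟩ := hne
    exact ⟨c, hc, fun i hi => absurd hi (Nat.not_lt_zero i)⟩)
  obtain ⟨n, hkn, hpn⟩ : ∃ n, k ≤ n ∧ p0 ≤ n := ⟨max k p0, le_max_left _ _, le_max_right _ _⟩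
  set W0 : Set G := C ∩ {y | ∀ i < n, y i = σ i} with hW0
  have hinv : ∀ q ∈ W0, ∀ μ : ℕ → ZMod 2, (∀ i < n, μ i = 0) → q + emb μ ∈ W0 := by
    intro q hq μ hμ
    have h2 := hk ⟨hq.1, fun i hi => hq.2 i (by omega)⟩ μ (fun i hi => hμ i (by omega))
    refine ⟨h2.1, fun i hi => ?_⟩
    show q i + emb μ i = σ i
    rw [hq.2 i hi]
    simp [emb, hμ i hi]
  obtain ⟨r, τ, p, hτ, hr⟩ := h0 σ n ⟨σ, hσ, fun i _ => rfl⟩
  set W1 : Set G := C ∩ {y | ∀ i < p, y i = τ i} with hW1
  have hW1c : IsCompact W1 := hC.inter_right (isClosed_cylinder τ p)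
  obtain ⟨q, hq, hmax⟩ := exists_max W1 hW1c ⟨τ, hτ, fun i _ => rfl⟩
  have hqW0 : q ∈ W0 := by
    obtain ⟨v, hv, hvr, hall⟩ := hr hq
    have := hall v hv (fun i _ => rfl)
    rwa [sub_add_cancel] at this
  obtain ⟨v, hv, hvr, hall⟩ := hr hq
  -- the index
  let j := ones v r
  obtain ⟨N, hN⟩ : ∃ N : ℕ, p ≤ N ∧ r < N := ⟨max p (r + 1), le_max_left _ _,
    lt_of_lt_of_le (Nat.lt_succ_self r) (le_max_right _ _)⟩
  let s := 2 ^ j * (2 * N + 1)
  have hs : N < s := by
    have : 1 ≤ 2 ^ j := Nat.one_le_two_pow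
    calc N < 2 * N + 1 := by omega
      _ = 1 * (2 * N + 1) := by ring
      _ ≤ 2 ^ j * (2 * N + 1) := Nat.mul_le_mul_right _ this
  have hdvd : 2 ^ j ∣ s := Dvd.intro _ rfl
  have hndvd : ¬ 2 ^ (j + 1) ∣ s := by
    rintro ⟨d, hd⟩
    have h3 : 2 ^ j * (2 * N + 1) = 2 ^ j * (2 * d) := by
      rw [show 2 ^ j * (2 * N + 1) = s from rfl, hd, pow_succ]; ring
    have h4 := Nat.eq_of_mul_eq_mul_left (by positivity) h3
    omega
  have hmono : ∀ i i', i ≤ i' → ones v i ≤ ones v i' := by
    intro i i' hi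
    unfold ones
    exact Finset.sum_le_sum_of_subset (Finset.range_mono hi)
  have hones_s : j + 1 ≤ ones v s := by
    have h5 : ones v (r + 1) = j + 1 := by
      show ones v (r + 1) = ones v r + 1
      unfold ones
      rw [Finset.sum_range_succ, if_pos hvr]
    rw [← h5]
    exact hmono _ _ (by omega)
  have hvs : (v s).2.1 = 0 := by
    rcases (hv s).2 with h6 | h6
    · exact h6
    · exact absurd ((pow_dvd_pow 2 hones_s).trans h6.2) hndvd
  -- the new point
  let l : G := fun i => ((v i).1, (v i).2.1 + (if i = s then 1 else 0),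
    if i < r then (v i).2.2 else 0)
  have hl_lt : ∀ i, i < r → l i = v i := by
    intro i hi
    have : i ≠ s := by omega
    simp [l, hi, this]
  have hones_le : ∀ i, ones l i ≤ ones v i ∧ ones l i ≤ j := by
    intro i
    have h7 : ones l i ≤ ones v i := by
      unfold ones
      refine Finset.sum_le_sum fun n _ => ?_
      by_cases hn : n < r
      · rw [hl_lt n hn]
      · have : (l n).2.2 = 0 := by simp [l, hn]
        rw [this]
        simp
    refine ⟨h7, ?_⟩
    by_cases hi : i ≤ r
    · exact h7.trans (hmono _ _ hi)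
    · push Not at hi
      have h8 : ones l i = ones l r := by
        unfold ones
        symm
        refine Finset.sum_subset (Finset.range_mono hi.le) ?_
        intro n _ hn
        have : (l n).2.2 = 0 := by
          have : ¬ n < r := fun h => hn (Finset.mem_range.mpr h)
          simp [l, this]
        rw [this]
        simp
      rw [h8]
      show ones l r ≤ ones v r
      unfold ones
      refine Finset.sum_le_sum fun n hn => ?_
      rw [hl_lt n (Finset.mem_range.mp hn)]
  have hl : l ∈ C0 := by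
    intro i
    refine ⟨(hv i).1, ?_⟩
    by_cases hi : i = s
    · right
      subst hi
      refine ⟨by simp [l, hvs], ?_⟩
      exact (pow_dvd_pow 2 (hones_le _).2).trans hdvd
    · have h9 : (l i).2.1 = (v i).2.1 := by simp [l, hi]
      rw [h9]
      rcases (hv i).2 with h10 | h10
      · left; exact h10
      · right
        exact ⟨h10.1, (pow_dvd_pow 2 (hones_le i).1).trans h10.2⟩
  have hmem := hall l hl hl_lt
  -- correct the third coordinates
  let μ : ℕ → ZMod 2 := fun i => (v i).2.2 - (l i).2.2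
  have hμ : ∀ i < n, μ i = 0 := by
    intro i hi
    have h11 := hmem.2 i hi
    have h12 := hqW0.2 i hi
    have h13 : q i - v i + l i = q i := by
      rw [h12]
      rw [← h12]
      exact h11.trans h12.symm
    have h14 : v i = l i := by
      have : q i - v i + l i - q i + v i = v i := by rw [h13]; abel
      rw [← this]; abel
    show (v i).2.2 - (l i).2.2 = 0
    rw [h14, sub_self]
  have hmem2 := hinv _ hmem μ hμ
  have heq : q - v + l + emb μ = q + unit s := by
    funext i
    show q i - v i + l i + emb μ i = q i + unit s i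
    have e1 : l i = v i + unit s i - emb μ i := by
      refine Prod.ext ?_ (Prod.ext ?_ ?_)
      · show (v i).1 = (v i).1 + 0 - 0
        simp
      · show (v i).2.1 + (if i = s then 1 else 0) = (v i).2.1 + (if i = s then 1 else 0) - 0
        simp
      · show (l i).2.2 = (v i).2.2 + 0 - ((v i).2.2 - (l i).2.2)
        ring
    rw [e1]
    abel
  rw [heq] at hmem2
  refine hmax s ⟨hmem2.1, fun i hi => ?_⟩
  show q i + unit s i = τ i
  rw [hq.2 i hi]
  have : i ≠ s := by omega
  simp [unit, this]

end Pool.Agent.H904R4
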