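import Pool.Agent.H904R4.Core

/-!
# The two sets are strongly Haar meager, their union is not
-/

set_option autoImplicit false

namespace Pool.Agent.H904R4

open Set Topology

/-- A subset `A` of an abelian Polish group is strongly Haar meager if there are a Borel set
`B ⊇ A` and a nonempty compact set `C` such that `(B + g) ∩ C` is meager in `C` for every `g`. -/
def StronglyHaarMeager {X : Type*} [AddCommGroup X] [TopologicalSpace X] (A : Set X) : Prop :=
  ∃ B : Set X, A ⊆ B ∧ @MeasurableSet X (borel X) B ∧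
    ∃ C : Set X, C.Nonempty ∧ IsCompact C ∧
      ∀ g : X, IsMeagre {x : C | (x : X) ∈ (fun b => b + g) '' B}

theorem mem_translate {X : Type*} [AddCommGroup X] (B : Set X) (g x : X) :
    x ∈ (fun b => b + g) '' B ↔ x - g ∈ B := by
  constructor
  · rintro ⟨b, hb, rfl⟩
    simpa using hb
  · intro h
    exact ⟨x - g, h, by simp⟩

theorem Th_sub (c g : G) (hc : ∀ i, (c i).1 = 0) :
    Th (c - g) = ((Th (-g)).1, c + (Th (-g)).2) := by
  refine Prod.ext ?_ ?_
  · funext n
    show bit ((c n).1 - (g n).1) = bit (-(g n).1)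
    rw [hc n, zero_sub]
  · funext n
    refine Prod.ext ?_ ?_
    · show num ((c n).1 - (g n).1) = (c n).1 + num (-(g n).1)
      rw [hc n, zero_sub, zero_add]
    · show (c n).2 - (g n).2 = (c n).2 + (-(g n).2)
      rw [sub_eq_add_neg]

theorem shm_A1 : StronglyHaarMeager A1 := by
  refine ⟨A1, Subset.rfl, borel_A1, C1, ⟨0, zero_mem_C1⟩, isCompact_C1, fun g => ?_⟩
  refine IsMeagre.mono ?_ (good1 (KK (Th (-g)).1) (isClosed_KK _) (Th (-g)).2)
  intro c hc
  have h1 := (mem_translate _ _ _).mp hc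
  have h2 : (Th ((c : G) - g)).2 ∈ D1 (KK (Th ((c : G) - g)).1) := h1
  rw [Th_sub _ _ fun i => (c.2 i).1] at h2
  exact h2

theorem shm_A0 : StronglyHaarMeager A0 := by
  refine ⟨A0, Subset.rfl, borel_A0, C0, ⟨0, zero_mem_C0⟩, isCompact_C0, fun g => ?_⟩
  refine IsMeagre.mono ?_ (good0 (KK (Th (-g)).1) (isClosed_KK _) (Th (-g)).2)
  intro c hc
  have h1 := (mem_translate _ _ _).mp hc
  have h2 : (Th ((c : G) - g)).2 ∈ D0 (KK (Th ((c : G) - g)).1) := h1
  rw [Th_sub _ _ fun i => (c.2 i).1] at h2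
  exact h2

/-- The bounds of the first coordinates on a compact set. -/
theorem exists_bound (C : Set G) (hC : IsCompact C) (n : ℕ) :
    ∃ b : ℕ, ∀ q ∈ C, |(q n).1| ≤ (b : ℤ) := by
  have h1 : IsCompact ((fun q : G => (q n).1) '' C) :=
    hC.image (continuous_fst.comp (continuous_apply n))
  have h2 : ((fun q : G => (q n).1) '' C).Finite := isCompact_iff_finite.mp h1
  obtain ⟨b, hb⟩ := (h2.image fun z => z.natAbs).bddAbove
  refine ⟨b, fun q hq => ?_⟩
  have h3 : ((q n).1).natAbs ≤ b :=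
    hb ⟨(q n).1, ⟨q, hq, rfl⟩, rfl⟩
  rw [Int.abs_eq_natAbs]
  exact_mod_cast h3

/-- The translation that makes all points of a compact set carry a given code. -/
theorem exists_shift (C : Set G) (hC : IsCompact C) (m : ℕ → Bool) :
    ∃ γ : G, ∀ q ∈ C, Th (q + γ) = (m, q) := by
  choose b hb using exists_bound C hC
  choose c hc using fun n => decoder (m n) (b n)
  refine ⟨fun n => (c n, 0), fun q hq => ?_⟩
  refine Prod.ext ?_ ?_
  · funext n
    show bit ((q n).1 + c n) = m n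
    rw [add_comm]
    exact (hc n _ (hb n q hq)).1
  · funext n
    refine Prod.ext ?_ ?_
    · show num ((q n).1 + c n) = (q n).1
      rw [add_comm]
      exact (hc n _ (hb n q hq)).2
    · show (q n).2 + 0 = (q n).2
      rw [add_zero]

/-- A Baire category argument. -/
theorem baire_step (C : Set G) (hC : IsCompact C) (W : Set G) (hWC : W ⊆ C)
    (O : Set G) (hO : IsOpen O) (hWO : W = C ∩ O) (hne : W.Nonempty) (D : Set G) (T : ℕ → Set G)
    (hT : ∀ k, IsClosed (T k)) (hD : ∀ q ∈ W, (∀ k, q ∉ T k) → q ∈ D)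
    (hmeagre : IsMeagre {x : C | (x : G) ∈ D}) :
    ∃ (k : ℕ) (τ : G) (p : ℕ), τ ∈ C ∧ C ∩ {y | ∀ i < p, y i = τ i} ⊆ T k := by
  by_contra hcon
  push Not at hcon
  have : CompactSpace C := isCompact_iff_compactSpace.mp hC
  have h1 : ∀ k, IsMeagre {x : C | (x : G) ∈ T k} := by
    intro k
    refine meagre_of _ fun O' hO' hne' => ?_
    obtain ⟨O1, hO1, rfl⟩ := isOpen_induced_iff.mp hO'
    obtain ⟨x, hx⟩ := hne'
    obtain ⟨p, hp⟩ := exists_cylinder hO1 hx
    have h2 := hcon k x p x.2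
    rw [Set.not_subset] at h2
    obtain ⟨y, hy, hyT⟩ := h2
    refine ⟨Subtype.val ⁻¹' (O1 ∩ (T k)ᶜ), (hO1.inter (hT k).isOpen_compl).preimage
      continuous_subtype_val, ⟨⟨y, hy.1⟩, hp y hy.2, hyT⟩, fun z hz => hz.1, ?_⟩
    rw [Set.disjoint_left]
    intro z hz hzT
    exact hz.2 hzT
  have h2 : IsMeagre ({x : C | (x : G) ∈ D} ∪ ⋃ k, {x : C | (x : G) ∈ T k}) :=
    hmeagre.union (isMeagre_iUnion h1)
  have h3 : IsOpen {x : C | (x : G) ∈ O} := hO.preimage continuous_subtype_val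
  obtain ⟨w, hw⟩ := hne
  refine not_isMeagre_of_isOpen h3 ⟨⟨w, hWC hw⟩, (hWO ▸ hw).2⟩ (h2.mono ?_)
  intro x hx
  have hxW : (x : G) ∈ W := by
    rw [hWO]; exact ⟨x.2, hx⟩
  by_cases hxT : ∃ k, (x : G) ∈ T k
  · obtain ⟨k, hk⟩ := hxT
    right
    exact mem_iUnion.mpr ⟨k, hk⟩
  · push Not at hxT
    left
    exact hD x hxW hxT

theorem not_shm_union : ¬ StronglyHaarMeager (A0 ∪ A1) := by
  rintro ⟨B, hsub, -, C, hne, hC, hmeagre⟩
  refine core C hC hne ?_ ?_
  · intro σ n hWne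
    set W : Set G := C ∩ {y | ∀ i < n, y i = σ i} with hW
    have hWc : IsClosed W := hC.isClosed.inter (isClosed_cylinder σ n)
    obtain ⟨m, hm⟩ := code_eq hWc
    obtain ⟨γ, hγ⟩ := exists_shift C hC m
    refine baire_step C hC W inter_subset_left _ (isOpen_cylinder σ n) hW hWne (D1 W)
      (fun k => S k W) (fun k => isClosed_S k hWc) (fun q hq hk => ⟨hq, hk⟩) ?_
    refine (hmeagre (-γ)).mono ?_
    intro x hx
    show (x : G) ∈ (fun b => b + -γ) '' B
    rw [mem_translate, sub_neg_eq_add]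
    refine hsub (Or.inr ?_)
    show (Th ((x : G) + γ)).2 ∈ D1 (KK (Th ((x : G) + γ)).1)
    rw [hγ x x.2, hm]
    exact hx
  · intro σ n hWne
    set W : Set G := C ∩ {y | ∀ i < n, y i = σ i} with hW
    have hWc : IsClosed W := hC.isClosed.inter (isClosed_cylinder σ n)
    obtain ⟨m, hm⟩ := code_eq hWc
    obtain ⟨γ, hγ⟩ := exists_shift C hC m
    refine baire_step C hC W inter_subset_left _ (isOpen_cylinder σ n) hW hWne (D0 W)
      (fun r => R r W) (fun r => isClosed_R r hWc) (fun q hq hk => ⟨hq, hk⟩) ?_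
    refine (hmeagre (-γ)).mono ?_
    intro x hx
    show (x : G) ∈ (fun b => b + -γ) '' B
    rw [mem_translate, sub_neg_eq_add]
    refine hsub (Or.inl ?_)
    show (Th ((x : G) + γ)).2 ∈ D0 (KK (Th ((x : G) + γ)).1)
    rw [hγ x x.2, hm]
    exact hx

end Pool.Agent.H904R4
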