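import Pool.Agent.H904R4.Base

/-!
# Strongly Haar meager sets are not a σ-ideal
-/

set_option autoImplicit false

namespace Pool.Agent.H904R4

open Set Topology

/-- The closed set with a given code. -/
def KK (m : ℕ → Bool) : Set G := {q | (m, q) ∈ Kset}

/-- The first strongly Haar meager set. -/
def A0 : Set G := {g | (Th g).2 ∈ D0 (KK (Th g).1)}

/-- The second strongly Haar meager set. -/
def A1 : Set G := {g | (Th g).2 ∈ D1 (KK (Th g).1)}

theorem continuous_emb : Continuous emb :=
  continuous_pi fun n => continuous_const.prodMk (continuous_const.prodMk (continuous_apply n))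

theorem isClosed_F : IsClosed {g : G | (Th g).2 ∈ KK (Th g).1} :=
  isClosed_Kset.preimage continuous_Th

theorem isClosed_F1' (k : ℕ) : IsClosed {p : (ℕ → Bool) × G | p.2 ∈ S k (KK p.1)} := by
  have : {p : (ℕ → Bool) × G | p.2 ∈ S k (KK p.1)} =
      ⋂ μ : ℕ → ZMod 2, ⋂ (_ : ∀ i < k, μ i = 0),
        (fun p : (ℕ → Bool) × G => (p.1, p.2 + emb μ)) ⁻¹' Kset := by
    ext g
    simp [S, KK]
  rw [this]
  refine isClosed_iInter fun μ => isClosed_iInter fun _ => ?_
  exact isClosed_Kset.preimage (continuous_fst.prodMk (continuous_snd.add continuous_const))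

theorem isClosed_F0' (r : ℕ) : IsClosed {p : (ℕ → Bool) × G | p.2 ∈ R r (KK p.1)} := by
  have : CompactSpace C0 := isCompact_iff_compactSpace.mp isCompact_C0
  let T : Set (((ℕ → Bool) × G) × C0) := {p | ((p.2 : G) r).2.2 = 1 ∧ ∀ l ∈ C0,
    (∀ i < r, l i = (p.2 : G) i) → (p.1.1, p.1.2 - (p.2 : G) + l) ∈ Kset}
  have hT : IsClosed T := by
    have h1 : IsClosed {p : ((ℕ → Bool) × G) × C0 | ((p.2 : G) r).2.2 = 1} :=
      isClosed_eq (continuous_snd.comp (continuous_snd.comp ((continuous_apply r).comp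
        (continuous_subtype_val.comp continuous_snd)))) continuous_const
    have h2 : ∀ l : G, IsClosed {p : ((ℕ → Bool) × G) × C0 | (∀ i < r, l i = (p.2 : G) i) →
        (p.1.1, p.1.2 - (p.2 : G) + l) ∈ Kset} := by
      intro l
      have h3 : {p : ((ℕ → Bool) × G) × C0 | (∀ i < r, l i = (p.2 : G) i) →
        (p.1.1, p.1.2 - (p.2 : G) + l) ∈ Kset} =
          {p : ((ℕ → Bool) × G) × C0 | (∀ i < r, (p.2 : G) i = l i)}ᶜ ∪
          (fun p : ((ℕ → Bool) × G) × C0 => (p.1.1, p.1.2 - (p.2 : G) + l)) ⁻¹' Kset := by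
        ext p
        simp only [mem_ofPred_eq, mem_union, mem_compl_iff, mem_preimage]
        constructor
        · intro h
          by_cases hp : ∀ i < r, (p.2 : G) i = l i
          · right; exact h fun i hi => (hp i hi).symm
          · left; exact hp
        · rintro (h | h) hp
          · exact absurd (fun i hi => (hp i hi).symm) h
          · exact h
      rw [h3]
      refine IsClosed.union ?_ ?_
      · exact ((isOpen_cylinder l r).preimage
          (continuous_subtype_val.comp continuous_snd)).isClosed_compl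
      · refine isClosed_Kset.preimage ?_
        exact (continuous_fst.comp continuous_fst).prodMk
          (((continuous_snd.comp continuous_fst).sub
            (continuous_subtype_val.comp continuous_snd)).add continuous_const)
    have : T = {p : ((ℕ → Bool) × G) × C0 | ((p.2 : G) r).2.2 = 1} ∩ ⋂ l : G, ⋂ (_ : l ∈ C0),
        {p : ((ℕ → Bool) × G) × C0 | (∀ i < r, l i = (p.2 : G) i) →
        (p.1.1, p.1.2 - (p.2 : G) + l) ∈ Kset} := by
      ext p
      simp [T]
    rw [this]
    exact h1.inter (isClosed_iInter fun l => isClosed_iInter fun _ => h2 l)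
  have himg : {p : (ℕ → Bool) × G | p.2 ∈ R r (KK p.1)} = Prod.fst '' T := by
    ext g
    constructor
    · rintro ⟨v, hv, h1, h2⟩
      exact ⟨(g, ⟨v, hv⟩), ⟨h1, h2⟩, rfl⟩
    · rintro ⟨⟨g', ⟨v, hv⟩⟩, ⟨h1, h2⟩, rfl⟩
      exact ⟨v, hv, h1, h2⟩
  rw [himg]
  exact isClosedMap_fst_of_compactSpace _ hT

theorem isClosed_F1 (k : ℕ) : IsClosed {g : G | (Th g).2 ∈ S k (KK (Th g).1)} :=
  (isClosed_F1' k).preimage continuous_Th

theorem isClosed_F0 (r : ℕ) : IsClosed {g : G | (Th g).2 ∈ R r (KK (Th g).1)} :=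
  (isClosed_F0' r).preimage continuous_Th

theorem code_eq {W : Set G} (hW : IsClosed W) : ∃ m : ℕ → Bool, KK m = W := by
  obtain ⟨m, hm⟩ := exists_code W hW
  exact ⟨m, Set.ext hm⟩

theorem isClosed_S (k : ℕ) {W : Set G} (hW : IsClosed W) : IsClosed (S k W) := by
  obtain ⟨m, rfl⟩ := code_eq hW
  exact (isClosed_F1' k).preimage (continuous_const.prodMk continuous_id)

theorem isClosed_R (r : ℕ) {W : Set G} (hW : IsClosed W) : IsClosed (R r W) := by
  obtain ⟨m, rfl⟩ := code_eq hW
  exact (isClosed_F0' r).preimage (continuous_const.prodMk continuous_id)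

theorem borel_A1 : @MeasurableSet G (borel G) A1 := by
  have : A1 = {g : G | (Th g).2 ∈ KK (Th g).1} \ ⋃ k, {g : G | (Th g).2 ∈ S k (KK (Th g).1)} := by
    ext g
    simp [A1, D1]
  rw [this]
  letI : MeasurableSpace G := borel G
  haveI : BorelSpace G := ⟨rfl⟩
  exact isClosed_F.measurableSet.diff (MeasurableSet.iUnion fun k => (isClosed_F1 k).measurableSet)

theorem borel_A0 : @MeasurableSet G (borel G) A0 := by
  have : A0 = {g : G | (Th g).2 ∈ KK (Th g).1} \ ⋃ k, {g : G | (Th g).2 ∈ R k (KK (Th g).1)} := by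
    ext g
    simp [A0, D0]
  rw [this]
  letI : MeasurableSpace G := borel G
  haveI : BorelSpace G := ⟨rfl⟩
  exact isClosed_F.measurableSet.diff (MeasurableSet.iUnion fun k => (isClosed_F0 k).measurableSet)

theorem isClosed_KK (m : ℕ → Bool) : IsClosed (KK m) :=
  isClosed_Kset.preimage (continuous_const.prodMk continuous_id)

/-- A criterion for being meager. -/
theorem meagre_of {X : Type*} [TopologicalSpace X] (s : Set X)
    (h : ∀ O : Set X, IsOpen O → O.Nonempty → ∃ O' : Set X, IsOpen O' ∧ O'.Nonempty ∧ O' ⊆ O ∧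
      Disjoint O' s) : IsMeagre s := by
  have h1 : interior sᶜ ∈ residual X := by
    refine residual_of_dense_open isOpen_interior ?_
    rw [dense_iff_inter_open]
    intro O hO hne
    obtain ⟨O', hO', ⟨x, hx⟩, hsub, hdis⟩ := h O hO hne
    refine ⟨x, hsub hx, ?_⟩
    rw [mem_interior]
    exact ⟨O', fun y hy hys => (Set.disjoint_left.mp hdis) hy hys, hO', hx⟩
  exact Filter.mem_of_superset h1 interior_subset

theorem good1 (W : Set G) (hW : IsClosed W) (h : G) : IsMeagre {c : C1 | (c : G) + h ∈ D1 W} := by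
  refine meagre_of _ fun O hO hne => ?_
  by_cases hOW : ∀ c ∈ O, (c : G) + h ∈ W
  · obtain ⟨c0, hc0⟩ := hne
    obtain ⟨O1, hO1, rfl⟩ := isOpen_induced_iff.mp hO
    obtain ⟨k, hk⟩ := exists_cylinder hO1 hc0
    refine ⟨Subtype.val ⁻¹' {y : G | ∀ i < k, y i = (c0 : G) i},
      (isOpen_cylinder _ k).preimage continuous_subtype_val, ⟨c0, fun i _ => rfl⟩,
      fun c hc => hk _ hc, ?_⟩
    rw [Set.disjoint_left]
    intro c hc hcD
    apply hcD.2 k
    intro μ hμ
    have hmem : (c : G) + emb μ ∈ C1 := by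
      intro i
      have := c.2 i
      simp [emb, this.1, this.2]
    have := hOW ⟨(c : G) + emb μ, hmem⟩ (hk _ (by
      intro i hi
      have h1 := hc i hi
      show (c : G) i + emb μ i = _
      rw [h1]
      simp [emb, hμ i hi]))
    have h2 : (c : G) + h + emb μ = (c : G) + emb μ + h := by abel
    rw [h2]
    exact this
  · push Not at hOW
    obtain ⟨c, hc, hcW⟩ := hOW
    refine ⟨O ∩ {c : C1 | (c : G) + h ∈ Wᶜ}, hO.inter (hW.isOpen_compl.preimage
      (continuous_subtype_val.add continuous_const)), ⟨c, hc, hcW⟩, inter_subset_left, ?_⟩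
    rw [Set.disjoint_left]
    rintro c' ⟨_, hc'⟩ hD
    exact hc' hD.1

theorem good0 (W : Set G) (hW : IsClosed W) (h : G) : IsMeagre {c : C0 | (c : G) + h ∈ D0 W} := by
  refine meagre_of _ fun O hO hne => ?_
  by_cases hOW : ∀ c ∈ O, (c : G) + h ∈ W
  · obtain ⟨c0, hc0⟩ := hne
    obtain ⟨O1, hO1, rfl⟩ := isOpen_induced_iff.mp hO
    obtain ⟨r, hr⟩ := exists_cylinder hO1 hc0
    -- the new point
    let c1 : G := fun i => if i < r then (c0 : G) i else (0, 0, if i = r then 1 else 0)
    have hc1lt : ∀ i, i < r → c1 i = (c0 : G) i := fun i hi => by simp [c1, hi]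
    have hones : ∀ i, i ≤ r → ones c1 i = ones (c0 : G) i := by
      intro i hi
      unfold ones
      refine Finset.sum_congr rfl fun n hn => ?_
      rw [hc1lt n (lt_of_lt_of_le (Finset.mem_range.mp hn) hi)]
    have hc1mem : c1 ∈ C0 := by
      intro i
      by_cases hi : i < r
      · have := c0.2 i
        rw [hones i hi.le, hc1lt i hi]
        exact this
      · simp [c1, hi]
    refine ⟨Subtype.val ⁻¹' {y : G | ∀ i < r + 1, y i = c1 i},
      (isOpen_cylinder _ (r + 1)).preimage continuous_subtype_val, ⟨⟨c1, hc1mem⟩, fun i _ => rfl⟩,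
      fun c hc => hr _ fun i hi => by rw [hc i (by omega), hc1lt i hi], ?_⟩
    rw [Set.disjoint_left]
    intro c hc hcD
    apply hcD.2 r
    refine ⟨c, c.2, ?_, ?_⟩
    · rw [hc r (by omega)]
      simp [c1]
    · intro l hl hlc
      have h1 : (c : G) + h - (c : G) + l = l + h := by abel
      rw [h1]
      refine hOW ⟨l, hl⟩ (hr _ fun i hi => ?_)
      show l i = _
      rw [hlc i hi, hc i (by omega), hc1lt i hi]
  · push Not at hOW
    obtain ⟨c, hc, hcW⟩ := hOW
    refine ⟨O ∩ {c : C0 | (c : G) + h ∈ Wᶜ}, hO.inter (hW.isOpen_compl.preimage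
      (continuous_subtype_val.add continuous_const)), ⟨c, hc, hcW⟩, inter_subset_left, ?_⟩
    rw [Set.disjoint_left]
    rintro c' ⟨_, hc'⟩ hD
    exact hc' hD.1

end Pool.Agent.H904R4
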